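import Pool.Agent.Lib.MP_c7af3c_ag.GEN.Interfaces

/-!
# MP_c7af3c_ag, project GEN, module PLACE
-/

set_option autoImplicit false

namespace Pool.Agent.Gen.H94

open WithZero IsDedekindDomain Pool.Agent.Gen

theorem le_exp_neg_one {x : ℤᵐ⁰} (h : x < 1) : x ≤ exp (-1 : ℤ) := by
  by_cases h0 : x = 0
  · rw [h0]; exact zero_le
  · rw [← exp_log h0, ← exp_zero, WithZero.exp_lt_exp] at h
    rw [← exp_log h0, WithZero.exp_le_exp]
    omega

theorem log_nonpos_of_le_one {x : ℤᵐ⁰} (h : x ≤ 1) : log x ≤ 0 := by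
  by_cases h0 : x = 0
  · rw [h0, log_zero]
  · rw [← exp_log h0, ← exp_zero, WithZero.exp_le_exp] at h
    exact h

theorem finite_ne_one {B L : Type} [CommRing B] [IsDedekindDomain B] [Field L] [Algebra B L]
    [IsFractionRing B L] (f : L) (hf : f ≠ 0) :
    {P : HeightOneSpectrum B | P.valuation L f ≠ 1}.Finite := by
  have h1 := HeightOneSpectrum.Support.finite B f
  have h2 := HeightOneSpectrum.Support.finite B f⁻¹
  refine (h1.union h2).subset fun P hP => ?_
  rcases lt_or_gt_of_ne hP with h | h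
  · right
    show 1 < P.valuation L f⁻¹
    rw [map_inv₀]
    have h0 : P.valuation L f ≠ 0 := by simpa using hf
    exact (one_lt_inv₀ (zero_lt_iff.2 h0)).2 h
  · left; exact h

section basic

variable {κ L : Type} [Field κ] [Field L] [Algebra κ L] {τ : L}

/-- the norm of a nonzero ideal has nonzero polynomial -/
theorem nrm_ne_zero (A : Type) {B : Type} [CommRing A] [IsDomain A] [IsPrincipalIdealRing A]
    [CommRing B] [IsDedekindDomain B] [Algebra A B] [Module.Finite A B]
    [Module.IsTorsionFree A B] {P : Ideal B} (hP : P ≠ ⊥) : nrm A P ≠ 0 := by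
  unfold nrm
  intro h
  have h1 : Ideal.relNorm A P = ⊥ := (Submodule.IsPrincipal.eq_bot_iff_generator_eq_zero _).2 h
  exact hP (Ideal.relNorm_eq_bot_iff.1 h1)

theorem nrm_not_isUnit (A : Type) {B : Type} [CommRing A] [IsDomain A] [IsPrincipalIdealRing A]
    [CommRing B] [IsDedekindDomain B] [Algebra A B] [Module.Finite A B]
    [Module.IsTorsionFree A B] {P : Ideal B} (hP : P ≠ ⊤) : ¬ IsUnit (nrm A P) := by
  unfold nrm
  intro h
  have h1 : Ideal.relNorm A P = ⊤ := by
    rw [← Ideal.span_singleton_generator (Ideal.relNorm A P)]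
    exact Ideal.span_singleton_eq_top.2 h
  have h2 := Ideal.relNorm_le_comap A P
  rw [h1, top_le_iff, Ideal.comap_eq_top_iff] at h2
  exact hP h2

theorem gp_ne_zero (h : FF κ L τ) {P : Ideal (PB κ τ)} (hP : P ≠ ⊥) : h.gp P ≠ 0 := by
  have := h.pid
  have := h.ddk
  have := h.finB
  unfold FF.gp
  intro h1
  exact nrm_ne_zero (PA κ τ) hP ((map_eq_zero_iff _ h.poly.injective).1 h1)

theorem gp_not_isUnit (h : FF κ L τ) {P : Ideal (PB κ τ)} (hP : P ≠ ⊤) : ¬ IsUnit (h.gp P) := by
  have := h.pid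
  have := h.ddk
  have := h.finB
  unfold FF.gp
  intro h1
  exact nrm_not_isUnit (PA κ τ) hP ((MulEquiv.isUnit_map h.poly).1 h1)

theorem w_pos (h : FF κ L τ) (P : HeightOneSpectrum (PB κ τ)) :
    0 < (h.gp P.asIdeal).natDegree := by
  rw [Nat.pos_iff_ne_zero]
  intro h0
  have h1 : h.gp P.asIdeal ≠ 0 := gp_ne_zero h P.ne_bot
  rw [Polynomial.natDegree_eq_zero] at h0
  obtain ⟨a, ha⟩ := h0
  apply gp_not_isUnit h P.isPrime.ne_top
  rw [← ha]
  apply Polynomial.isUnit_C.2
  apply IsUnit.mk0
  intro ha0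
  rw [ha0, Polynomial.C_0] at ha
  exact h1 ha.symm

/-- the generator -/
theorem poly_gen (h : FF κ L τ) (q : Polynomial κ) :
    ((h.poly.symm q : PA κ τ) : L) = Polynomial.aeval τ q := by
  simp [FF.poly]

theorem w_inf (h : FF κ L τ) (P : HeightOneSpectrum (PB κ τ))
    (hP : 0 < (h.gp P.asIdeal).rootMultiplicity 0) :
    haveI := h.ddk
    haveI := h.frac
    P.valuation L τ ≤ exp (-1 : ℤ) := by
  have := h.pid
  have := h.ddk
  have := h.finB
  have := h.frac
  have h1 : h.gp P.asIdeal ≠ 0 := gp_ne_zero h P.ne_bot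
  have h2 : Polynomial.X ∣ h.gp P.asIdeal := by
    have := (Polynomial.rootMultiplicity_pos h1).1 hP
    rw [Polynomial.dvd_iff_isRoot.symm] at this
    simpa using this
  set t : PA κ τ := h.poly.symm Polynomial.X with ht
  have h3 : t ∣ nrm (PA κ τ) P.asIdeal := by
    have : h.poly t ∣ h.poly (nrm (PA κ τ) P.asIdeal) := by
      rw [ht, AlgEquiv.apply_symm_apply]; exact h2
    exact (map_dvd_iff h.poly).1 this
  have ht' : Prime t := by
    rw [ht]
    exact (MulEquiv.prime_iff h.poly.symm).2 Polynomial.prime_X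
  have h4 : Ideal.relNorm (PA κ τ) P.asIdeal ≤ Ideal.span {t} := by
    rw [← Ideal.span_singleton_generator (Ideal.relNorm (PA κ τ) P.asIdeal)]
    exact Ideal.span_singleton_le_span_singleton.2 h3
  have := P.isPrime
  obtain ⟨s, hs⟩ := Ideal.exists_relNorm_eq_pow_of_isPrime P.asIdeal
    (P.asIdeal.under (PA κ τ))
  rw [hs] at h4
  have h5 : (P.asIdeal.under (PA κ τ)) ≤ Ideal.span {t} := by
    have hp : (Ideal.span {t}).IsPrime := (Ideal.span_singleton_prime ht'.ne_zero).2 ht'
    exact Ideal.IsPrime.le_of_pow_le h4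
  have h6 : (P.asIdeal.under (PA κ τ)) = Ideal.span {t} := by
    have hp : (P.asIdeal.under (PA κ τ)).IsPrime := inferInstance
    have hb : (P.asIdeal.under (PA κ τ)) ≠ ⊥ := by
      intro hb
      exact P.ne_bot (Ideal.eq_bot_of_comap_eq_bot hb)
    have hm := hp.isMaximal hb
    have hpt : (Ideal.span {t}).IsPrime := (Ideal.span_singleton_prime ht'.ne_zero).2 ht'
    exact hm.eq_of_le hpt.ne_top h5
  have h7 : algebraMap (PA κ τ) (PB κ τ) t ∈ P.asIdeal := by
    have : t ∈ P.asIdeal.under (PA κ τ) := by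
      rw [h6]; exact Ideal.mem_span_singleton_self t
    exact this
  have h8 := (HeightOneSpectrum.valuation_lt_one_iff_mem (K := L) P _).2 h7
  have h9 : algebraMap (PB κ τ) L (algebraMap (PA κ τ) (PB κ τ) t) = τ := by
    have := poly_gen h Polynomial.X
    rw [Polynomial.aeval_X] at this
    exact this
  have h10 : P.valuation L τ < 1 :=
    lt_of_eq_of_lt (congrArg (fun y => P.valuation L y) h9.symm) h8
  exact le_exp_neg_one h10

theorem int_le (h : FF κ L τ) (P : HeightOneSpectrum (PB κ τ)) (z : L)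
    (hz : IsIntegral (PA κ τ) z) :
    haveI := h.ddk
    haveI := h.frac
    P.valuation L z ≤ 1 := by
  have := h.ddk
  have := h.frac
  exact HeightOneSpectrum.valuation_le_one (K := L) P (⟨z, hz⟩ : PB κ τ)

theorem isIntegral_const (a : κ) : IsIntegral (PA κ τ) (algebraMap κ L a) := by
  rw [IsScalarTower.algebraMap_apply κ (PA κ τ) L]
  exact isIntegral_algebraMap

theorem lam_deg (h : FF κ L τ) (a b : PA κ τ) (ha : a ≠ 0) (hb : b ≠ 0) :
    (h.poly (a * b)).natDegree = (h.poly a).natDegree + (h.poly b).natDegree := by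
  rw [map_mul, Polynomial.natDegree_mul]
  · exact (map_ne_zero_iff _ h.poly.injective).2 ha
  · exact (map_ne_zero_iff _ h.poly.injective).2 hb

theorem lam_ord (h : FF κ L τ) (a b : PA κ τ) (ha : a ≠ 0) (hb : b ≠ 0) :
    (h.poly (a * b)).rootMultiplicity 0 =
      (h.poly a).rootMultiplicity 0 + (h.poly b).rootMultiplicity 0 := by
  rw [map_mul, Polynomial.rootMultiplicity_mul]
  exact mul_ne_zero ((map_ne_zero_iff _ h.poly.injective).2 ha)
    ((map_ne_zero_iff _ h.poly.injective).2 hb)

theorem aeval_poly (h : FF κ L τ) (β : PA κ τ) :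
    Polynomial.aeval τ (h.poly β) = (β : L) := by
  rw [← poly_gen h, AlgEquiv.symm_apply_apply]

theorem place (h1 : NormidStatement) : PlaceStatement := by
  intro κ L _ _ _ τ h
  refine ⟨?_, ?_, ?_, ?_, ?_, ?_, ?_, ?_⟩
  · intro f hf
    have := h.ddk
    have := h.frac
    have := h.inv.ddk
    have := h.inv.frac
    have e1 := finite_ne_one (B := PB κ τ) (L := L) f hf
    have e2 := finite_ne_one (B := PB κ τ⁻¹) (L := L) f hf
    refine ((e1.image Sum.inl).union (e2.image Sum.inr)).subset fun p hp => ?_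
    rcases p with P | Q
    · left; exact ⟨P, hp, rfl⟩
    · right; exact ⟨Q, hp, rfl⟩
  · intro P
    exact w_pos h P
  · intro Q hQ
    exact w_inf h.inv Q hQ
  · intro P z hz
    exact int_le h P z hz
  · intro Q z hz
    exact int_le h.inv Q z hz
  · intro p a
    rcases p with P | Q
    · exact int_le h P _ (isIntegral_const a)
    · exact int_le h.inv Q _ (isIntegral_const a)
  · intro z
    have := h.pid
    have := h.ddk
    have := h.frac
    have := h.finB
    obtain ⟨β, hβ, ⟨b, hb⟩, hs⟩ := (h1 (PA κ τ) (PB κ τ) L (fun a => (h.poly a).natDegree)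
      (lam_deg h)).2 z
    refine ⟨h.poly β, (map_ne_zero_iff _ h.poly.injective).2 hβ, ?_, ?_⟩
    · rw [aeval_poly h]
      have : (β : L) * z = algebraMap (PB κ τ) L b := hb.symm
      rw [this]
      exact b.2
    · exact hs
  · intro z hz
    have := h.inv.pid
    have := h.inv.ddk
    have := h.inv.frac
    have := h.inv.finB
    obtain ⟨β, hβ, ⟨b, hb⟩, hs⟩ := (h1 (PA κ τ⁻¹) (PB κ τ⁻¹) L
      (fun a => (h.inv.poly a).rootMultiplicity 0) (lam_ord h.inv)).2 z
    refine ⟨h.inv.poly β, ?_, ?_⟩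
    · have h0 : ((h.inv.poly β).rootMultiplicity 0 : ℤ) = 0 := by
        refine hs.trans ?_
        apply finsum_eq_zero_of_forall_eq_zero
        intro Q
        by_cases hQ : 0 < (ffPlaces h).w (Sum.inr Q)
        · have h2 := hz Q hQ
          have h3 : log ((ffPlaces h).v (Sum.inr Q) z) ≤ 0 := log_nonpos_of_le_one h2
          have h4 : max 0 (log (Q.valuation L z)) = 0 := max_eq_left h3
          rw [h4, mul_zero]
        · have h5 : (h.inv.poly (nrm (PA κ τ⁻¹) Q.asIdeal)).rootMultiplicity 0 = 0 := by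
            exact Nat.eq_zero_of_not_pos hQ
          rw [h5]; simp
      have h6 : (h.inv.poly β).rootMultiplicity 0 = 0 := by exact_mod_cast h0
      have h7 : h.inv.poly β ≠ 0 := (map_ne_zero_iff _ h.inv.poly.injective).2 hβ
      intro h8
      have h9 : 0 < (h.inv.poly β).rootMultiplicity 0 := by
        apply (Polynomial.rootMultiplicity_pos h7).2
        rw [Polynomial.IsRoot, ← Polynomial.coeff_zero_eq_eval_zero]
        exact h8
      omega
    · rw [aeval_poly h.inv]
      have : (β : L) * z = algebraMap (PB κ τ⁻¹) L b := hb.symm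
      rw [this]
      exact b.2

end basic

end Pool.Agent.Gen.H94
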